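import Pool.Agent.H56.NWR.Local

/-! # Fractional Nash-Williams: averaging the four point inequality -/

open Finset

namespace H56NWR

variable {V : Type} [Fintype V]

/-- The data of an optimal perfect fractional matching: `g` is the adjacency (0/1), `z` the edge
weights, `p` the matching, `r` the signed potentials. -/
structure Data (g z p : V → V → ℝ) (r : V → ℝ) (k : ℝ) : Prop where
  g01 : ∀ x y, g x y = 0 ∨ g x y = 1
  gs : ∀ x y, g x y = g y x
  deg : ∀ x, ∑ y, (1 - g x y) ≤ k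
  zs : ∀ x y, z x y = z y x
  tri : ∀ x y c, g x y = 1 → g y c = 1 → g x c = 1 → 0 ≤ z x y + z y c + z x c
  p0 : ∀ x y, 0 ≤ p x y
  ps : ∀ x y, p x y = p y x
  p1 : ∀ x, ∑ y, p x y = 1
  hr : ∀ x y, g x y = 1 → -r x - r y ≤ z x y
  pg : ∀ x y, p x y ≠ 0 → g x y = 1
  pz : ∀ x y, p x y ≠ 0 → z x y = -r x - r y

variable {g z p : V → V → ℝ} {r : V → ℝ} {k : ℝ}

/-- the four point inequality for two matching edges -/
lemma Data.four (D : Data g z p r k) {y1 y2 c1 c2 : V} (hy : p y1 y2 ≠ 0) (hc : p c1 c2 ≠ 0) :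
    (al (r y1) (r y2) + al (r c1) (r c2)) *
      (1 - ((1 - g y1 c1) + (1 - g y1 c2) + (1 - g y2 c1) + (1 - g y2 c2)))
      ≤ g y1 c1 * z y1 c1 + g y1 c2 * z y1 c2 + g y2 c1 * z y2 c1 + g y2 c2 * z y2 c2 := by
  have hgy := D.pg _ _ hy
  have hgc := D.pg _ _ hc
  have hzy := D.pz _ _ hy
  have hzc := D.pz _ _ hc
  refine four_point (r y1) (r y2) (r c1) (r c2) _ _ _ _ _ _ _ _ (D.g01 _ _) (D.g01 _ _)
    (D.g01 _ _) (D.g01 _ _) (D.hr _ _) (D.hr _ _) (D.hr _ _) (D.hr _ _) ?_ ?_ ?_ ?_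
  · intro h1 h2
    have := D.tri y1 y2 c1 hgy h2 h1
    linarith
  · intro h1 h2
    have := D.tri y1 y2 c2 hgy h2 h1
    linarith
  · intro h1 h2
    have := D.tri y1 c1 c2 h1 hgc h2
    linarith
  · intro h1 h2
    have := D.tri y2 c1 c2 h1 hgc h2
    linarith

/-- sums over pairs of matching edges -/
def S4 (p : V → V → ℝ) (f : V → V → V → V → ℝ) : ℝ :=
  ∑ y1, ∑ y2, ∑ c1, ∑ c2, p y1 y2 * p c1 c2 * f y1 y2 c1 c2

lemma S4_add (p : V → V → ℝ) (f f' : V → V → V → V → ℝ) :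
    S4 p (fun a b c d => f a b c d + f' a b c d) = S4 p f + S4 p f' := by
  unfold S4
  simp only [mul_add, Finset.sum_add_distrib]

lemma S4_le (D : Data g z p r k) {f f' : V → V → V → V → ℝ}
    (h : ∀ a b c d, p a b ≠ 0 → p c d ≠ 0 → f a b c d ≤ f' a b c d) : S4 p f ≤ S4 p f' := by
  unfold S4
  refine Finset.sum_le_sum fun a _ => Finset.sum_le_sum fun b _ => Finset.sum_le_sum fun c _ =>
    Finset.sum_le_sum fun d _ => ?_
  by_cases h1 : p a b = 0
  · simp [h1]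
  by_cases h2 : p c d = 0
  · simp [h2]
  exact mul_le_mul_of_nonneg_left (h a b c d h1 h2) (mul_nonneg (D.p0 _ _) (D.p0 _ _))

/-- the four marginals -/
lemma S4_11 (D : Data g z p r k) (φ : V → V → ℝ) :
    S4 p (fun y1 _ c1 _ => φ y1 c1) = ∑ y, ∑ c, φ y c := by
  unfold S4
  refine Finset.sum_congr rfl fun y1 _ => ?_
  have h : ∀ y2, ∑ c1, ∑ c2, p y1 y2 * p c1 c2 * φ y1 c1 = p y1 y2 * ∑ c1, φ y1 c1 := by
    intro y2
    rw [Finset.mul_sum]
    refine Finset.sum_congr rfl fun c1 _ => ?_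
    have : ∀ c2, p y1 y2 * p c1 c2 * φ y1 c1 = (p y1 y2 * φ y1 c1) * p c1 c2 := fun c2 => by ring
    rw [Finset.sum_congr rfl fun c2 _ => this c2, ← Finset.mul_sum, D.p1, mul_one]
  rw [Finset.sum_congr rfl fun y2 _ => h y2, ← Finset.sum_mul, D.p1, one_mul]

lemma S4_swap1 (D : Data g z p r k) (f : V → V → V → V → ℝ) :
    S4 p (fun a b c d => f b a c d) = S4 p f := by
  unfold S4
  rw [Finset.sum_comm]
  refine Finset.sum_congr rfl fun a _ => Finset.sum_congr rfl fun b _ =>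
    Finset.sum_congr rfl fun c _ => Finset.sum_congr rfl fun d _ => ?_
  rw [D.ps b a]

lemma S4_swap2 (D : Data g z p r k) (f : V → V → V → V → ℝ) :
    S4 p (fun a b c d => f a b d c) = S4 p f := by
  unfold S4
  refine Finset.sum_congr rfl fun a _ => Finset.sum_congr rfl fun b _ => ?_
  rw [Finset.sum_comm]
  refine Finset.sum_congr rfl fun c _ => Finset.sum_congr rfl fun d _ => ?_
  rw [D.ps d c]

lemma S4_swap (f : V → V → V → V → ℝ) :
    S4 p (fun a b c d => f c d a b) = S4 p f := by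
  unfold S4
  have h1 : ∀ F : V → V → V → V → ℝ, ∑ a, ∑ b, ∑ c, ∑ d, F c d a b
      = ∑ a, ∑ b, ∑ c, ∑ d, F a b c d := by
    intro F
    calc ∑ a, ∑ b, ∑ c, ∑ d, F c d a b = ∑ a, ∑ c, ∑ b, ∑ d, F c d a b :=
          Finset.sum_congr rfl fun a _ => Finset.sum_comm
      _ = ∑ c, ∑ a, ∑ b, ∑ d, F c d a b := Finset.sum_comm
      _ = ∑ c, ∑ a, ∑ d, ∑ b, F c d a b :=
          Finset.sum_congr rfl fun c _ => Finset.sum_congr rfl fun a _ => Finset.sum_comm
      _ = ∑ c, ∑ d, ∑ a, ∑ b, F c d a b :=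
          Finset.sum_congr rfl fun c _ => Finset.sum_comm
  rw [← h1 (fun a b c d => p a b * p c d * f a b c d)]
  refine Finset.sum_congr rfl fun a _ => Finset.sum_congr rfl fun b _ =>
    Finset.sum_congr rfl fun c _ => Finset.sum_congr rfl fun d _ => ?_
  ring

/-- `Z ≥ 0`. -/
theorem Data.total (D : Data g z p r k) (hk : 4 * k ≤ Fintype.card V) :
    0 ≤ ∑ x, ∑ y, g x y * z x y := by
  set m : V → V → V → V → ℝ := fun y1 y2 c1 c2 =>
    (1 - g y1 c1) + (1 - g y1 c2) + (1 - g y2 c1) + (1 - g y2 c2) with hm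
  -- left side
  have hL : S4 p (fun y1 y2 c1 c2 => g y1 c1 * z y1 c1 + g y1 c2 * z y1 c2 + g y2 c1 * z y2 c1
      + g y2 c2 * z y2 c2) = 4 * ∑ x, ∑ y, g x y * z x y := by
    have e11 := S4_11 D (fun x y => g x y * z x y)
    have e12 : S4 p (fun y1 y2 c1 c2 => g y1 c2 * z y1 c2) = ∑ x, ∑ y, g x y * z x y := by
      rw [← e11]; exact S4_swap2 D (fun y1 _ c1 _ => g y1 c1 * z y1 c1)
    have e21 : S4 p (fun y1 y2 c1 c2 => g y2 c1 * z y2 c1) = ∑ x, ∑ y, g x y * z x y := by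
      rw [← e11]; exact S4_swap1 D (fun y1 _ c1 _ => g y1 c1 * z y1 c1)
    have e22 : S4 p (fun y1 y2 c1 c2 => g y2 c2 * z y2 c2) = ∑ x, ∑ y, g x y * z x y := by
      rw [← e12]; exact S4_swap1 D (fun y1 _ _ c2 => g y1 c2 * z y1 c2)
    rw [S4_add, S4_add, S4_add, e11, e12, e21, e22]
    ring
  -- right side
  have hR : 0 ≤ S4 p (fun y1 y2 c1 c2 =>
      (al (r y1) (r y2) + al (r c1) (r c2)) * (1 - m y1 y2 c1 c2)) := by
    have e1 : S4 p (fun y1 y2 c1 c2 => (al (r y1) (r y2) + al (r c1) (r c2)) *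
        (1 - m y1 y2 c1 c2)) = 2 * S4 p (fun y1 y2 c1 c2 => al (r y1) (r y2) *
        (1 - m y1 y2 c1 c2)) := by
      have e2 : S4 p (fun y1 y2 c1 c2 => al (r c1) (r c2) * (1 - m y1 y2 c1 c2))
          = S4 p (fun y1 y2 c1 c2 => al (r y1) (r y2) * (1 - m y1 y2 c1 c2)) := by
        rw [← S4_swap (p := p) (fun y1 y2 c1 c2 => al (r y1) (r y2) * (1 - m y1 y2 c1 c2))]
        congr 1
        funext y1 y2 c1 c2
        simp only [hm]
        rw [D.gs c1 y1, D.gs c1 y2, D.gs c2 y1, D.gs c2 y2]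
        ring
      have e3 : (fun y1 y2 c1 c2 => (al (r y1) (r y2) + al (r c1) (r c2)) *
          (1 - m y1 y2 c1 c2)) = fun y1 y2 c1 c2 => al (r y1) (r y2) * (1 - m y1 y2 c1 c2)
            + al (r c1) (r c2) * (1 - m y1 y2 c1 c2) := by
        funext y1 y2 c1 c2; ring
      rw [e3, S4_add, e2]; ring
    rw [e1]
    refine mul_nonneg (by norm_num) ?_
    unfold S4
    refine Finset.sum_nonneg fun y1 _ => Finset.sum_nonneg fun y2 _ => ?_
    -- inner sums
    have i0 : ∑ c1, ∑ c2, p c1 c2 = Fintype.card V := by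
      rw [Finset.sum_congr rfl fun c1 _ => D.p1 c1]
      simp
    have i1 : ∀ y, ∑ c1, ∑ c2, p c1 c2 * (1 - g y c1) = ∑ c, (1 - g y c) := by
      intro y
      refine Finset.sum_congr rfl fun c1 _ => ?_
      rw [← Finset.sum_mul, D.p1, one_mul]
    have i2 : ∀ y, ∑ c1, ∑ c2, p c1 c2 * (1 - g y c2) = ∑ c, (1 - g y c) := by
      intro y
      rw [Finset.sum_comm]
      refine Finset.sum_congr rfl fun c2 _ => ?_
      rw [← Finset.sum_mul]
      have : ∑ c1, p c1 c2 = 1 := by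
        rw [← D.p1 c2]
        exact Finset.sum_congr rfl fun c1 _ => D.ps _ _
      rw [this, one_mul]
    have e : ∑ c1, ∑ c2, p y1 y2 * p c1 c2 * (al (r y1) (r y2) * (1 - m y1 y2 c1 c2))
        = p y1 y2 * al (r y1) (r y2) * (Fintype.card V - 2 * ∑ c, (1 - g y1 c)
          - 2 * ∑ c, (1 - g y2 c)) := by
      have e' : ∀ c1 c2, p y1 y2 * p c1 c2 * (al (r y1) (r y2) * (1 - m y1 y2 c1 c2))
          = p y1 y2 * al (r y1) (r y2) * (p c1 c2 - p c1 c2 * (1 - g y1 c1)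
            - p c1 c2 * (1 - g y1 c2) - p c1 c2 * (1 - g y2 c1) - p c1 c2 * (1 - g y2 c2)) := by
        intro c1 c2
        simp only [hm]
        ring
      simp only [e', ← Finset.mul_sum]
      congr 1
      simp only [Finset.sum_sub_distrib]
      simp only [Finset.sum_sub_distrib] at i1 i2
      rw [i0]
      have := i1 y1
      have := i2 y1
      have := i1 y2
      have := i2 y2
      linarith
    rw [e]
    refine mul_nonneg (mul_nonneg (D.p0 _ _) (al_nonneg _ _)) ?_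
    have := D.deg y1
    have := D.deg y2
    linarith
  have hle := S4_le D (f := fun y1 y2 c1 c2 =>
      (al (r y1) (r y2) + al (r c1) (r c2)) * (1 - m y1 y2 c1 c2))
    (f' := fun y1 y2 c1 c2 => g y1 c1 * z y1 c1 + g y1 c2 * z y1 c2 + g y2 c1 * z y2 c1
      + g y2 c2 * z y2 c2) (fun a b c d h1 h2 => D.four h1 h2)
  rw [hL] at hle
  linarith

end H56NWR
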