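import Mathlib

/-! # Fractional Nash-Williams: the four point inequality and its average -/

open Finset

namespace H56NWR

/-- the weight of a matching edge with potentials `p`, `q` -/
def al (p q : ℝ) : ℝ := max (p + q) (max (-p) (-q))

lemma al_nonneg (p q : ℝ) : 0 ≤ al p q := by
  unfold al
  rcases le_total 0 (p + q) with h | h
  · exact le_trans h (le_max_left _ _)
  · have h1 : -p ≤ max (p + q) (max (-p) (-q)) := le_trans (le_max_left _ _) (le_max_right _ _)
    have h2 : -q ≤ max (p + q) (max (-p) (-q)) := le_trans (le_max_right _ _) (le_max_right _ _)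
    linarith

lemma al_spec (p q : ℝ) : (p + q ≤ al p q ∧ -p ≤ al p q ∧ -q ≤ al p q) ∧
    (al p q = p + q ∨ al p q = -p ∨ al p q = -q) := by
  refine ⟨⟨le_max_left _ _, le_trans (le_max_left _ _) (le_max_right _ _),
    le_trans (le_max_right _ _) (le_max_right _ _)⟩, ?_⟩
  unfold al
  rcases max_choice (p + q) (max (-p) (-q)) with h | h
  · left; exact h
  · rcases max_choice (-p) (-q) with h' | h'
    · right; left; rw [h, h']
    · right; right; rw [h, h']

/-- **The four point inequality.** -/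
theorem four_point (p1 p2 q1 q2 z11 z12 z21 z22 g11 g12 g21 g22 : ℝ)
    (h11 : g11 = 0 ∨ g11 = 1) (h12 : g12 = 0 ∨ g12 = 1) (h21 : g21 = 0 ∨ g21 = 1)
    (h22 : g22 = 0 ∨ g22 = 1)
    (e11 : g11 = 1 → -p1 - q1 ≤ z11) (e12 : g12 = 1 → -p1 - q2 ≤ z12)
    (e21 : g21 = 1 → -p2 - q1 ≤ z21) (e22 : g22 = 1 → -p2 - q2 ≤ z22)
    (a1 : g11 = 1 → g21 = 1 → p1 + p2 ≤ z11 + z21) (a2 : g12 = 1 → g22 = 1 → p1 + p2 ≤ z12 + z22)
    (b1 : g11 = 1 → g12 = 1 → q1 + q2 ≤ z11 + z12) (b2 : g21 = 1 → g22 = 1 → q1 + q2 ≤ z21 + z22) :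
    (al p1 p2 + al q1 q2) * (1 - ((1 - g11) + (1 - g12) + (1 - g21) + (1 - g22)))
      ≤ g11 * z11 + g12 * z12 + g21 * z21 + g22 * z22 := by
  obtain ⟨⟨P1, P2, P3⟩, P4⟩ := al_spec p1 p2
  obtain ⟨⟨Q1, Q2, Q3⟩, Q4⟩ := al_spec q1 q2
  have P0 := al_nonneg p1 p2
  have Q0 := al_nonneg q1 q2
  generalize al p1 p2 = A at *
  generalize al q1 q2 = B at *
  rcases h11 with rfl | rfl <;> rcases h12 with rfl | rfl <;> rcases h21 with rfl | rfl <;>
    rcases h22 with rfl | rfl <;>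
    simp only [zero_ne_one, forall_true_left,  zero_mul,
      one_mul, sub_zero, sub_self, add_zero, zero_add, IsEmpty.forall_iff] at *
  all_goals first
    | linarith
    | (rcases P4 with rfl | rfl | rfl <;> rcases Q4 with rfl | rfl | rfl <;> linarith)

end H56NWR
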